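import Mathlib
import Pool.Agent.H.MP_c05c30_lc.Main

set_option autoImplicit false

namespace Pool.Agent.Results.MP_c05c30_lc.Counter

open Pool.Agent.H.MP_c05c30_lc Pool.Agent.H.MP_3d7de8_lc

theorem result : ∃ (S : Type) (_ : Semigroup S) (P : Type) (_ : Field P),
    SgHomogeneous S ∧ FieldHomogeneous P ∧ ¬ LogHomogeneous P (MonoidAlgebra P S) :=
  ⟨S ℝ, inferInstance, ZMod 2, inferInstance, sg_homog, field_homog, not_homog⟩

end Pool.Agent.Results.MP_c05c30_lc.Counter
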